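import Pool.Agent.V11145.MajorUpper
import Pool.Agent.V11145.MajorLim

set_option autoImplicit false

/-!
# Forced cliques in graphs not degree-majorized by r-partite graphs: asymptotic determination

`copyNumbers n k r` is the set of the numbers of copies of `K_{r+1}` in the `n`-vertex graphs of
maximum degree `k` that are non-majorizable for `r`, so `m(n,k,r) = sInf (copyNumbers n k r)`.
-/

namespace Pool.Agent.Results.MP_76b19e_co.Asymptotics

open Pool.Agent.V11145.Maj

/-- Let `r ≥ 2`, `n = r t + δ` with `t = n - k ≥ 1` and `δ ≥ 1`, and let `j` be the largest integer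
with `j ≤ r` and `C(j,2) + 1 ≤ δ`.  Then the minimum `m = m(n,k,r)` is defined and
`t ^ (r - j) (1 - D / t) ≤ m ≤ t ^ (r - j)` with `D = r 2 ^ (r + 4) (r + 1)!`
(the first inequality is written after multiplication by `t`). -/
theorem result (r t δ j : ℕ) (hr : 2 ≤ r) (ht : 1 ≤ t) (hj1 : 1 ≤ j) (hjr : j ≤ r)
    (hjδ : j.choose 2 + 1 ≤ δ) (hj : j = r ∨ δ ≤ (j + 1).choose 2) :
    (copyNumbers (r * t + δ) (r * t + δ - t) r).Nonempty ∧
    t ^ (r - j) * t ≤ t * sInf (copyNumbers (r * t + δ) (r * t + δ - t) r) +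
      r * 2 ^ (r + 4) * (r + 1).factorial * t ^ (r - j) ∧
    sInf (copyNumbers (r * t + δ) (r * t + δ - t) r) ≤ t ^ (r - j) := by
  have conv : ∀ (n k : ℕ) (G : SimpleGraph (Fin n)), k ≤ n →
      ((∀ v, deg G v ≤ k) ↔ ∀ v, n - k ≤ cd G Finset.univ v) ∧
      ((∃ v, deg G v = k) ↔ ∃ v, cd G Finset.univ v = n - k) := by
    intro n k G hk
    refine ⟨forall_congr' fun v => ?_, exists_congr fun v => ?_⟩
    · have := deg_add_cd G v
      omega
    · have := deg_add_cd G v
      omega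
  have main : (copyNumbers (r * t + δ) (r * t + δ - t) r).Nonempty ∧
      sInf (copyNumbers (r * t + δ) (r * t + δ - t) r) ≤ t ^ (r - j) := by
    have hj2 : j = 1 → δ = 1 := by
      intro h
      subst h
      rcases hj with hj | hj
      · omega
      · simp at hj hjδ
        omega
    obtain ⟨G, h1, h2, h3, h4⟩ := upper hr ht hj1 hjr hjδ hj2
    have hle : t ≤ r * t + δ := by nlinarith
    obtain ⟨c1, c2⟩ := conv (r * t + δ) (r * t + δ - t) G (Nat.sub_le _ _)
    rw [Nat.sub_sub_self hle] at c1 c2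
    have hmem : {S : Finset (Fin (r * t + δ)) | G.IsNClique (r + 1) S}.ncard ∈
        copyNumbers (r * t + δ) (r * t + δ - t) r :=
      ⟨G, c1.2 h1, c2.2 h2, h3, rfl⟩
    exact ⟨⟨_, hmem⟩, (Nat.sInf_le hmem).trans h4⟩
  obtain ⟨hne, hup⟩ := main
  obtain ⟨G, hG1, hG2, hG3, hG4⟩ := Nat.sInf_mem hne
  have hle : t ≤ r * t + δ := by nlinarith
  obtain ⟨c1, c2⟩ := conv (r * t + δ) (r * t + δ - t) G (Nat.sub_le _ _)
  rw [Nat.sub_sub_self hle] at c1 c2
  refine ⟨hne, ?_, hup⟩
  rw [hG4]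
  exact lower_asym G (by omega) ht rfl hj hjr (c1.1 hG1) (c2.1 hG2) hG3

end Pool.Agent.Results.MP_76b19e_co.Asymptotics
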